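import Mathlib
import Pool.Agent.KS6_59.LR.BE
import Pool.Agent.KS6_59.LR.Hil

set_option autoImplicit false

namespace Pool.Agent.Results.MP_27ef93_an.SeparableComplemented

open Pool.Agent.Results.MP_27ef93_an.MaxNotLocallyReflexive (LocallyReflexive maxN)

/-- The Hilbert space `ℓ²(ℕ)`. -/
def L2 : Type := lp (fun _ : ℕ => ℂ) 2

noncomputable instance instL2 : NormedAddCommGroup L2 :=
  (inferInstance : NormedAddCommGroup (lp (fun _ : ℕ => ℂ) 2))

noncomputable instance instL2I : InnerProductSpace ℂ L2 :=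
  (inferInstance : InnerProductSpace ℂ (lp (fun _ : ℕ => ℂ) 2))

section

variable (E : Type) [NormedAddCommGroup E] [NormedSpace ℂ E]

/-- The Banach space `B(E)` of bounded operators on `E`. -/
def Bd : Type := E →L[ℂ] E

noncomputable instance instBd : NormedAddCommGroup (Bd E) :=
  (inferInstance : NormedAddCommGroup (E →L[ℂ] E))

noncomputable instance instBdS : NormedSpace ℂ (Bd E) :=
  (inferInstance : NormedSpace ℂ (E →L[ℂ] E))

variable {E}

/-- The operator `a` as a map. -/
def fn (a : Bd E) : E → E := ⇑(show E →L[ℂ] E from a)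

variable (E)

/-- The space `K(E)` of compact operators on `E`. -/
noncomputable def Kp : Submodule ℂ (Bd E) where
  carrier := {a | IsCompactOperator (fn a)}
  add_mem' ha hb := IsCompactOperator.add ha hb
  zero_mem' := isCompactOperator_zero
  smul_mem' c _ ha := IsCompactOperator.smul ha c

/-- The quotient `B(E)/K(E)`. -/
def Calk : Type := Bd E ⧸ Kp E

noncomputable instance instCalk : AddCommGroup (Calk E) :=
  (inferInstance : AddCommGroup (Bd E ⧸ Kp E))

noncomputable instance instCalkM : Module ℂ (Calk E) :=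
  (inferInstance : Module ℂ (Bd E ⧸ Kp E))

/-- The quotient norm. -/
noncomputable instance instCalkN : Norm (Calk E) :=
  (inferInstance : Norm (Bd E ⧸ Kp E))

variable {E}

/-- The quotient map `B(E) → B(E)/K(E)`. -/
noncomputable def qt (a : Bd E) : Calk E := (Kp E).mkQ a

/-- The maximal operator space `max(X)` is not `lam`-locally reflexive for any `lam`. -/
def NeverLR (X : Type) [NormedAddCommGroup X] [NormedSpace ℂ X] : Prop :=
  ∀ lam : ℝ, ¬ LocallyReflexive (maxN X) lam

/-- `F` is isometric to a subspace of `B(ℓ²)` containing the set `G` and all compact operators. -/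
def IsoToLarge (G : Set (Bd L2)) (F : Type) [NormedAddCommGroup F] [NormedSpace ℂ F] : Prop :=
  ∃ j : F →ₗᵢ[ℂ] Bd L2, G ⊆ Set.range j ∧ ∀ k ∈ Kp L2, k ∈ Set.range j

/-- `X` contains a complemented isomorphic copy of `F`. -/
def HasCompl (F X : Type) [NormedAddCommGroup F] [NormedSpace ℂ F] [NormedAddCommGroup X]
    [NormedSpace ℂ X] : Prop :=
  ∃ (T : F →L[ℂ] X) (S : X →L[ℂ] F), ∀ x, S (T x) = x

/-- Some linear contraction `u : X → B(E)/K(E)` has no bounded linear lifting `v : X → B(E)`. -/
def HasUnliftable (X E : Type) [NormedAddCommGroup X] [NormedSpace ℂ X] [NormedAddCommGroup E]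
    [NormedSpace ℂ E] : Prop :=
  ∃ u : X →ₗ[ℂ] Calk E, (∀ x, ‖u x‖ ≤ ‖x‖) ∧
    ∀ (v : X →ₗ[ℂ] Bd E) (C : ℝ), (∀ x, ‖v x‖ ≤ C * ‖x‖) → ¬ ∀ x, qt (v x) = u x

end

/-- (1) There is a countable set `G` of operators on `ℓ²` such that for every normed space `F`
isometric to a subspace of `B(ℓ²)` containing `G` and the compact operators, and for every normed
space `X` containing a complemented isomorphic copy of `F`, the maximal operator space `max(X)` is
not `lam`-locally reflexive for any `lam`.

(2) There is a separable C*-algebra `A` such that `max(A)` is not `lam`-locally reflexive for any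
`lam`.

(3) If the Banach space `E` contains a complemented copy of `ℓ²`, then `max(B(E))` is not
`lam`-locally reflexive for any `lam`.

(4) There is a separable Banach space `X` such that for every Banach space `E` containing
a complemented copy of `ℓ²` some linear contraction `X → B(E)/K(E)` has no bounded linear lifting
`X → B(E)`.

(5) Every infinite-dimensional Hilbert space (separable or not) contains a complemented copy of
`ℓ²`, so that (3) and (4) apply to it. -/
theorem result :
    (∃ G : Set (Bd L2), G.Countable ∧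
      ∀ (F : Type) [NormedAddCommGroup F] [NormedSpace ℂ F], IsoToLarge G F →
        ∀ (X : Type) [NormedAddCommGroup X] [NormedSpace ℂ X], HasCompl F X → NeverLR X) ∧
    (∃ (A : Type) (_ : NonUnitalCStarAlgebra A), TopologicalSpace.SeparableSpace A ∧
      NeverLR A) ∧
    (∀ (E : Type) [NormedAddCommGroup E] [NormedSpace ℂ E] [CompleteSpace E], HasCompl L2 E →
      NeverLR (Bd E)) ∧
    (∃ (X : Type) (_ : NormedAddCommGroup X) (_ : NormedSpace ℂ X) (_ : CompleteSpace X)
      (_ : TopologicalSpace.SeparableSpace X),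
      ∀ (E : Type) [NormedAddCommGroup E] [NormedSpace ℂ E] [CompleteSpace E], HasCompl L2 E →
        HasUnliftable X E) ∧
    (∀ (H : Type) [NormedAddCommGroup H] [InnerProductSpace ℂ H] [CompleteSpace H],
      ¬ FiniteDimensional ℂ H → HasCompl L2 H) := by
  refine ⟨?_, Pool.Agent.KS6_59.LR.sep_cstar, ?_, ?_, fun H _ _ _ hH => ?_⟩
  · obtain ⟨G, hG, h⟩ := Pool.Agent.KS6_59.LR.all_level
    refine ⟨G, hG, ?_⟩
    rintro F _ _ ⟨j, hj1, hj2⟩ X _ _ ⟨T, S, hST⟩ lam
    exact h F j hj1 hj2 X T S hST lam
  · rintro E _ _ _ ⟨J, Q, h⟩ lam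
    exact Pool.Agent.KS6_59.LR.not_lr_BE J Q h lam
  · obtain ⟨X, i1, i2, i3, i4, u, hu, hno⟩ :=
      Pool.Agent.Results.MP_27ef93_an.NoCalkinLifting.result.2
    refine ⟨X, i1, i2, i3, i4, ?_⟩
    rintro E _ _ _ ⟨J, Q, h⟩
    obtain ⟨u', hu', hno'⟩ := Pool.Agent.KS6_59.LR.transfer_lift J Q h u hu hno
    refine ⟨u', fun x => (hu' x).trans (le_of_eq (one_mul _)), fun v C hv hx => ?_⟩
    exact hno' C ⟨v, hx, hv⟩
  · exact Pool.Agent.KS6_59.LR.hilbert_compl H hH

end Pool.Agent.Results.MP_27ef93_an.SeparableComplemented
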